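import Pool.Agent.helper81.PL.SpecA

/-! # Project bs, module CST: constants -/

set_option autoImplicit false
set_option linter.dupNamespace false
set_option linter.unusedVariables false

namespace Pool.Agent.helper81.PL

open Pool.Agent.helper62 Prog Function

theorem CST : CST_stmt := by
  intro α β _ _ x
  refine ⟨(cd x).length + 2, fun b => ⟨.seq (clear b) (pushes b (cd x).reverse), ?_⟩⟩
  intro a S hS _
  have h1 := Runs.clear (k := b) (cd a) S hS
  have h2 := Runs.pushes (k := b) (cd x).reverse (update S b [])
  refine (Runs.seq h1 h2).mono' ?_ ?_
  · simp
  · simp only [List.length_reverse, sz]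
    omega

end Pool.Agent.helper81.PL
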